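import Mathlib

namespace Pool.Agent.Results.MP_e8eed4_co.Three

open Classical Finset Filter

lemma split {V : Type} [Countable V] (N : V → Set V) :
    ∃ χ : V → Fin 3, ∀ v c, (N v).Infinite → {u | u ∈ N v ∧ χ u = c}.Infinite := by
  rcases isEmpty_or_nonempty V with hV | hV
  · exact ⟨fun _ => 0, fun v => isEmptyElim v⟩
  obtain ⟨e, he⟩ := exists_surjective_nat (V × Fin 3 × ℕ)
  have step : ∀ (n : ℕ) (s : Finset V), ∃ u, (N (e n).1).Infinite → u ∈ N (e n).1 ∧ u ∉ s := by
    intro n s
    by_cases h : (N (e n).1).Infinite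
    · obtain ⟨u, h1, h2⟩ := h.exists_notMem_finset s
      exact ⟨u, fun _ => ⟨h1, h2⟩⟩
    · exact ⟨hV.some, fun g => absurd g h⟩
  choose f hf using step
  obtain ⟨S, S0, S1⟩ : ∃ S : ℕ → Finset V, S 0 = ∅ ∧ ∀ n, S (n + 1) = insert (f n (S n)) (S n) :=
    ⟨fun n => Nat.rec ∅ (fun n s => insert (f n s) s) n, rfl, fun _ => rfl⟩
  have mono : Monotone S := monotone_nat_of_le_succ fun n => by rw [S1]; exact subset_insert _ _
  have inj : ∀ m n, (N (e m).1).Infinite → (N (e n).1).Infinite → f m (S m) = f n (S n) →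
      m = n := by
    have : ∀ m n, m < n → (N (e n).1).Infinite → f m (S m) ≠ f n (S n) := by
      intro m n h hn g
      refine (hf n (S n) hn).2 ?_
      rw [← g]
      exact mono h (by rw [S1]; exact mem_insert_self _ _)
    intro m n hm hn g
    rcases lt_trichotomy m n with h | h | h
    · exact absurd g (this m n h hn)
    · exact h
    · exact absurd g.symm (this n m h hm)
  refine ⟨fun u => if h : ∃ n, (N (e n).1).Infinite ∧ f n (S n) = u then (e h.choose).2.1 else 0,
    fun v c hv => ?_⟩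
  choose g hg using fun k : ℕ => he (v, c, k)
  have hi : ∀ k, (N (e (g k)).1).Infinite := fun k => by rw [hg]; exact hv
  refine Set.infinite_of_injective_forall_mem (f := fun k => f (g k) (S (g k))) ?_ ?_
  · intro k l h
    have := congrArg e (inj _ _ (hi k) (hi l) h)
    rw [hg, hg] at this
    simpa using this
  · intro k
    have h1 : ∃ n, (N (e n).1).Infinite ∧ f n (S n) = f (g k) (S (g k)) := ⟨g k, hi k, rfl⟩
    refine ⟨by simpa [hg] using (hf (g k) (S (g k)) (hi k)).1, ?_⟩
    simp only [dif_pos h1]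
    rw [inj _ _ h1.choose_spec.1 (hi k) h1.choose_spec.2, hg]

lemma fin_case {V : Type} (w : V → V → ℕ) (hs : ∀ u v, w u v = w v u) (h0 : ∀ v, w v v = 0)
    (χ : V → Fin 3) (F : Finset V) : ∃ φ : V → Fin 3, (∀ u, φ u ≠ χ u) ∧
      ∀ v ∈ F, ∑ u ∈ F with φ u = φ v, w v u ≤ ∑ u ∈ F with φ u ≠ φ v, w v u := by
  let M : (V → Fin 3) → ℕ := fun φ => ∑ x ∈ F, ∑ y ∈ F, if φ x = φ y then w x y else 0
  have hne : ({φ : V → Fin 3 | ∀ u, φ u ≠ χ u}).Nonempty :=
    ⟨fun u => χ u + 1, fun u => by
      have : ∀ c : Fin 3, c + 1 ≠ c := by decide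
      exact this _⟩
  obtain ⟨φ, hφ, hmin⟩ := (InvImage.wf M wellFounded_lt).has_min _ hne
  refine ⟨φ, hφ, fun v hv => ?_⟩
  obtain ⟨c, c1, c2⟩ : ∃ c, c ≠ χ v ∧ c ≠ φ v := by
    have : ∀ a b : Fin 3, ∃ c, c ≠ a ∧ c ≠ b := by decide
    exact this _ _
  have h1 : M φ ≤ M (Function.update φ v c) := by
    refine not_lt.1 (hmin _ fun u => ?_)
    by_cases h : u = v
    · subst h
      simpa using c1
    · simpa [h] using hφ u
  have key : ∀ ψ : V → Fin 3, M ψ = 2 * (∑ y ∈ F.erase v, if ψ y = ψ v then w v y else 0) +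
      ∑ x ∈ F.erase v, ∑ y ∈ F.erase v, if ψ x = ψ y then w x y else 0 := by
    intro ψ
    simp only [M]
    rw [← add_sum_erase _ _ hv, ← add_sum_erase _ _ hv]
    have : ∀ x, (∑ y ∈ F, if ψ x = ψ y then w x y else 0) =
        (if ψ x = ψ v then w v x else 0) + ∑ y ∈ F.erase v, if ψ x = ψ y then w x y else 0 := by
      intro x
      rw [← add_sum_erase _ _ hv, hs x v]
    simp only [this, sum_add_distrib, h0, ite_self, eq_comm (a := ψ v)]
    ring
  rw [key, key] at h1
  have h2 : (∑ x ∈ F.erase v, ∑ y ∈ F.erase v,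
      if Function.update φ v c x = Function.update φ v c y then w x y else 0) =
      ∑ x ∈ F.erase v, ∑ y ∈ F.erase v, if φ x = φ y then w x y else 0 := by
    refine sum_congr rfl fun x hx => sum_congr rfl fun y hy => ?_
    rw [Function.update_of_ne (ne_of_mem_erase hx), Function.update_of_ne (ne_of_mem_erase hy)]
  have h3 : (∑ y ∈ F.erase v,
      if Function.update φ v c y = Function.update φ v c v then w v y else 0) ≤
      ∑ u ∈ F with φ u ≠ φ v, w v u := by
    rw [sum_filter]
    refine le_trans (sum_le_sum fun y hy => ?_) (sum_le_sum_of_subset (erase_subset v F))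
    rw [Function.update_of_ne (ne_of_mem_erase hy), Function.update_self]
    split_ifs with g1 g2
    · exact le_rfl
    · exact absurd (g1.symm.trans (not_not.1 g2)) c2
    · exact Nat.zero_le _
    · exact le_rfl
  have h4 : ∑ u ∈ F with φ u = φ v, w v u = ∑ y ∈ F.erase v, if φ y = φ v then w v y else 0 := by
    rw [sum_filter, ← add_sum_erase _ _ hv, h0]
    simp
  omega

theorem result {V : Type} [Countable V] (w : V → V → ℕ) (hs : ∀ u v, w u v = w v u)
    (h0 : ∀ v, w v v = 0) : ∃ φ : V → Fin 3, ∀ v,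
      ∑' u : {u // φ u = φ v}, (w v u : ENNReal) ≤ ∑' u : {u // φ u ≠ φ v}, (w v u : ENNReal) := by
  obtain ⟨χ, hχ⟩ := split fun v => {u | w v u ≠ 0}
  choose ψ h1 h2 using fin_case w hs h0 χ
  let U : Ultrafilter (Finset V) := Ultrafilter.of atTop
  have hU : (U : Filter (Finset V)) ≤ atTop := Ultrafilter.of_le _
  have : ∀ u, ∃ c, ∀ᶠ F in (U : Filter (Finset V)), ψ F u = c := fun u => by
    have := (Ultrafilter.eventually_exists_iff (f := U) (P := fun c F => ψ F u = c)).1
      (Eventually.of_forall fun F => ⟨_, rfl⟩)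
    exact this
  choose φ hφ using this
  have h3 : ∀ u, φ u ≠ χ u := fun u => by
    obtain ⟨F, hF⟩ := (hφ u).exists
    rw [← hF]
    exact h1 F u
  refine ⟨φ, fun v => ?_⟩
  by_cases hv : {u | w v u ≠ 0}.Infinite
  · have h4 := hχ v (φ v) hv
    have : ∑' u : {u // φ u ≠ φ v}, (w v u : ENNReal) = ⊤ := by
      by_contra g
      have h5 := ENNReal.finite_const_le_of_tsum_ne_top g (ε := 1) one_ne_zero
      refine h4 ((h5.image Subtype.val).subset ?_)
      rintro u ⟨u1, u2⟩
      refine ⟨⟨u, fun e => h3 u (e.trans u2.symm)⟩, ?_, rfl⟩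
      exact_mod_cast Nat.one_le_iff_ne_zero.2 u1
    rw [this]
    exact le_top
  · have hf := Set.not_infinite.1 hv
    obtain ⟨F, F1, F2⟩ := (((eventually_ge_atTop (insert v hf.toFinset)).filter_mono hU).and
      ((eventually_all_finset (insert v hf.toFinset)).2 fun u _ => hφ u)).exists
    have hvF : v ∈ F := F1 (mem_insert_self _ _)
    have e0 := F2 v (mem_insert_self _ _)
    have tr : ∀ P : Fin 3 → Prop, ∑' u : {u // P (φ u)}, (w v u : ENNReal) =
        ((∑ u ∈ F with P (ψ F u), w v u : ℕ) : ENNReal) := by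
      intro P
      have := tsum_subtype {u | P (φ u)} fun u => (w v u : ENNReal)
      refine this.trans ?_
      rw [tsum_eq_sum (s := F), Nat.cast_sum, sum_filter]
      · refine sum_congr rfl fun u _ => ?_
        by_cases g : w v u = 0
        · simp [Set.indicator, g]
        · rw [F2 u (mem_insert_of_mem (hf.mem_toFinset.2 g))]
          simp [Set.indicator]
      · intro u hu
        have g : w v u = 0 := by
          by_contra g
          exact hu (F1 (mem_insert_of_mem (hf.mem_toFinset.2 g)))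
        simp [Set.indicator, g]
    rw [tr (fun c => c = φ v), tr (fun c => c ≠ φ v), ← e0]
    rw [Nat.cast_le]
    convert h2 F v hvF

end Pool.Agent.Results.MP_e8eed4_co.Three
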